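import Mathlib
import Pool.Agent.Y816.GL3R.Loc
import Pool.Agent.Y816.GL3T.Loc

/-! The trace of a nontempered unitary parameter of `GL(3)` is near a cube root of minus the central character. -/

set_option autoImplicit false

namespace Pool.Agent.Q251.GN

open Complex Pool.Agent.Y816.GL3R
open Pool.Agent.W189

theorem unit_conj {z : ℂ} (h : ‖z‖ = 1) : ((starRingEnd ℂ) z)⁻¹ = z := by
  have h1 := zz h
  have h0 : (starRingEnd ℂ) z ≠ 0 := by
    intro h2
    rw [h2, mul_zero] at h1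
    exact zero_ne_one h1
  exact (eq_inv_of_mul_eq_one_left h1).symm

theorem perm_of_unitary {a : Fin 3 → ℂ} (hU : RS.Unitary a) (hdet : ‖∏ i, a i‖ = 1) (h : ¬ ∀ i, ‖a i‖ = 1) :
    ∃ τ : Equiv.Perm (Fin 3), ∀ i, a (τ i) = ((starRingEnd ℂ) (a i))⁻¹ := by
  push Not at h
  obtain ⟨i, hi⟩ := h
  have h1 : ((starRingEnd ℂ) (a i))⁻¹ ∈ Multiset.map (fun i => ((starRingEnd ℂ) (a i))⁻¹) Finset.univ.val :=
    Multiset.mem_map.2 ⟨i, Finset.mem_univ_val i, rfl⟩
  rw [hU.2] at h1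
  obtain ⟨j, -, hj⟩ := Multiset.mem_map.1 h1
  have hi0 : 0 < ‖a i‖ := norm_pos_iff.2 (hU.1 i)
  have hjn : ‖a j‖ = ‖a i‖⁻¹ := by rw [hj, norm_inv, RCLike.norm_conj]
  have hij : i ≠ j := by
    rintro rfl
    apply hi
    have h2 : ‖a i‖ * ‖a i‖ = 1 := by
      nth_rw 1 [hjn]
      exact inv_mul_cancel₀ hi0.ne'
    nlinarith
  have hk : ∀ k, k ≠ i → k ≠ j → ‖a k‖ = 1 := by
    intro k hki hkj
    have e : ∏ l, a l = a i * a j * a k := by
      have : (Finset.univ : Finset (Fin 3)) = {i, j, k} := by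
        ext l
        simp only [Finset.mem_univ, Finset.mem_insert, Finset.mem_singleton, true_iff]
        clear hj h1 hjn hi hi0 hdet
        revert i j k l
        decide
      rw [this, Finset.prod_insert (by simp [hij, Ne.symm hki]), Finset.prod_insert (by simp [Ne.symm hkj]),
        Finset.prod_singleton, mul_assoc]
    rw [e, norm_mul, norm_mul, hjn, mul_inv_cancel₀ hi0.ne', one_mul] at hdet
    exact hdet
  refine ⟨Equiv.swap i j, fun l => ?_⟩
  by_cases hli : l = i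
  · rw [hli, Equiv.swap_apply_left, hj]
  · by_cases hlj : l = j
    · rw [hlj, Equiv.swap_apply_right, hj, map_inv₀, inv_inv, Complex.conj_conj]
    · rw [Equiv.swap_apply_of_ne_of_ne hli hlj, unit_conj (hk l hli hlj)]

theorem exists_cube_root {w : ℂ} (hw : ‖w‖ = 1) : ∃ c : ℂ, c ^ 3 = w ∧ ‖c‖ = 1 := by
  obtain ⟨c, hc⟩ := IsAlgClosed.exists_pow_nat_eq w (show 0 < 3 by norm_num)
  refine ⟨c, hc, ?_⟩
  have h3 : ‖c‖ ^ 3 = 1 := by rw [← norm_pow, hc, hw]
  exact (pow_eq_one_iff_of_nonneg (norm_nonneg _) (by norm_num)).1 h3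

/-- the trace of a nontempered parameter with determinant `w` is near a cube root of `-w` -/
theorem local_root {a : Fin 3 → ℂ} (hU : RS.Unitary a) {w : ℂ} (hw : ‖w‖ = 1) (hdet : ∏ i, a i = w)
    (h : ¬ ∀ i, ‖a i‖ = 1) : ∃ z : ℂ, z ^ 3 = -w ∧ ‖∑ i, a i - z‖ ^ 2 ≤ 34 * (‖∑ i, a i‖ ^ 2 - 1) := by
  obtain ⟨τ, hτ⟩ := perm_of_unitary hU (by rw [hdet, hw]) h
  obtain ⟨c, hc, hcn⟩ := exists_cube_root hw
  have hc0 : c ≠ 0 := by
    intro h0
    rw [h0] at hcn
    norm_num at hcn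
  set b : Fin 3 → ℂ := fun i => a i / c with hb
  have hbn : ∀ i, ‖b i‖ = ‖a i‖ := fun i => by rw [hb]; simp only; rw [norm_div, hcn, div_one]
  have hb0 : ∀ i, b i ≠ 0 := fun i => div_ne_zero (hU.1 i) hc0
  have hbt : ∀ i, b (τ i) = ((starRingEnd ℂ) (b i))⁻¹ := by
    intro i
    rw [hb]
    simp only
    rw [hτ i, map_div₀, inv_div, div_eq_mul_inv, div_eq_mul_inv, mul_comm]
    congr 1
    have := unit_conj hcn
    rw [← this]
    rw [inv_inv, this]
  have hbd : ∏ i, b i = 1 := by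
    rw [hb]
    simp only
    rw [Finset.prod_div_distrib, hdet, Finset.prod_const, Finset.card_univ, Fintype.card_fin, hc]
    exact div_self (by rw [← hc]; exact pow_ne_zero _ hc0)
  have hbt' : ¬ ∀ i, ‖b i‖ = 1 := by
    intro h1
    exact h fun i => by rw [← hbn i]; exact h1 i
  obtain ⟨X, u, h1, h2, h3, -⟩ := shape hb0 ⟨τ, hbt⟩ hbd hbt'
  have h5 : ∑ i, b i = lam (X + X⁻¹) u := by
    have := h3 1
    unfold lam
    simpa only [pow_one] using this
  have hX0 : 0 < X := by linarith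
  have hT : 2 ≤ X + X⁻¹ := by
    have h1 : X + X⁻¹ - 2 = (X - 1) ^ 2 / X := by field_simp; ring
    have h2 : 0 ≤ (X - 1) ^ 2 / X := by positivity
    linarith
  obtain ⟨ω, hω, hωb⟩ := exists_root hT h2
  have h6 : ∑ i, a i = c * ∑ i, b i := by
    rw [Finset.mul_sum]
    refine Finset.sum_congr rfl fun i _ => ?_
    rw [hb]
    field_simp
  refine ⟨-(c * ω), ?_, ?_⟩
  · rw [Odd.neg_pow (by decide), mul_pow, hc, hω, mul_one]
  · rw [sub_neg_eq_add, h6, ← mul_add, norm_mul, hcn, one_mul, norm_mul, hcn, one_mul, h5]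
    exact hωb

/-- two different cube roots of the same number of absolute value one -/
theorem roots_far {z z' : ℂ} {w : ℂ} (hw : ‖w‖ = 1) (h : z ^ 3 = w) (h' : z' ^ 3 = w) (hne : z ≠ z') :
    ‖z - z'‖ ^ 2 = 3 := by
  have hn : ∀ y : ℂ, y ^ 3 = w → ‖y‖ = 1 := fun y hy => by
    have h3 : ‖y‖ ^ 3 = 1 := by rw [← norm_pow, hy, hw]
    exact (pow_eq_one_iff_of_nonneg (norm_nonneg _) (by norm_num)).1 h3
  have h1 : z ^ 2 + z * z' + z' ^ 2 = 0 := by
    have h2 : (z - z') * (z ^ 2 + z * z' + z' ^ 2) = 0 := by linear_combination h - h'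
    exact (mul_eq_zero.1 h2).resolve_left (sub_ne_zero.2 hne)
  have c1 := zz (hn z h)
  have c2 := zz (hn z' h')
  have h3 : ((‖z - z'‖ ^ 2 : ℝ) : ℂ) = 3 := by
    rw [← Complex.normSq_eq_norm_sq, ← Complex.mul_conj, map_sub]
    -- (z - z')(z̄ - z̄') = 2 - z z̄' - z' z̄ ; multiply by z z'
    have hz0 : z ≠ 0 := by
      intro h0
      rw [h0, zero_mul] at c1
      exact zero_ne_one c1
    have hz0' : z' ≠ 0 := by
      intro h0
      rw [h0, zero_mul] at c2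
      exact zero_ne_one c2
    apply mul_left_cancel₀ (mul_ne_zero hz0 hz0')
    linear_combination (z * z' - z' ^ 2) * c1 + (z * z' - z ^ 2) * c2 - h1
  have h4 : (((‖z - z'‖ ^ 2 : ℝ)) : ℂ) = ((3 : ℝ) : ℂ) := by rw [h3]; norm_num
  exact_mod_cast h4

/-- orthogonality on the three cube roots -/
theorem root_ind {z z' : ℂ} {w : ℂ} (hw : ‖w‖ = 1) (h : z ^ 3 = w) (h' : z' ^ 3 = w) :
    (1 + 2 * ((starRingEnd ℂ) z' * z).re) / 3 = if z = z' then 1 else 0 := by
  have hn : ∀ y : ℂ, y ^ 3 = w → ‖y‖ = 1 := fun y hy => by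
    have h3 : ‖y‖ ^ 3 = 1 := by rw [← norm_pow, hy, hw]
    exact (pow_eq_one_iff_of_nonneg (norm_nonneg _) (by norm_num)).1 h3
  split_ifs with he
  · have h1 : (starRingEnd ℂ) z' * z' = 1 := by
      rw [mul_comm]
      exact zz (hn z' h')
    rw [he, h1]
    norm_num
  · have h1 := roots_far hw h h' he
    have h2 : ‖z - z'‖ ^ 2 = ‖z‖ ^ 2 + ‖z'‖ ^ 2 - 2 * ((starRingEnd ℂ) z' * z).re := by
      rw [← Complex.normSq_eq_norm_sq, ← Complex.normSq_eq_norm_sq, ← Complex.normSq_eq_norm_sq, Complex.normSq_sub]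
      congr 2
      rw [mul_comm]
    rw [h2, hn z h, hn z' h'] at h1
    linarith

end Pool.Agent.Q251.GN
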