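import Mathlib
import Pool.Agent.TH861.GL3.Main

/-! Twists of a cusp form on `GL(3)` over a number field by the characters of a ray class group. -/

set_option autoImplicit false

namespace Pool.Agent.Q251.GN

open NumberField IsDedekindDomain Pool.Agent.TH861.GL3

variable {K : Type*} [Field K] [NumberField K] {S : Finset (HeightOneSpectrum (𝓞 K))}

/-- the logarithm `∑_{v ∉ S} ∑_{k ≥ 1} ψ(v)^k t(v, k) / k · q_v^{-ks}` of an Euler product over the places `v ∉ S` -/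
noncomputable def logT (ψ : PL S → ℂ) (t : PL S → ℕ → ℂ) (s : ℂ) : ℂ :=
  ∑' x : PL S × ℕ, ψ x.1 ^ (x.2 + 1) * t x.1 (x.2 + 1) / ((x.2 : ℂ) + 1) *
    (((qq x.1.1 : ℕ) : ℂ) ^ (-s)) ^ (x.2 + 1)

/-- `α` are the Satake parameters of `π`; `X` is a ray class group, `cl v` the class of `v`, and `w` the central
character of `π`; the partial `L`-functions `L^S(s, π × ψ)` and, for `ψ ≠ 1`, `L^S(s, ψ)` are continuous and do not
vanish at `s = 1`. -/
structure ClassTwists {X : Type*} [AddCommGroup X] (α : PL S → Fin 3 → ℂ) (cl : PL S → X) (w : X → ℂ) : Prop where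
  /-- the central character is unitary and depends on the class only -/
  norm_w : ∀ g, ‖w g‖ = 1
  central : ∀ v, ∏ i, α v i = w (cl v)
  /-- the bound of Jacquet and Shalika -/
  jacquet_shalika : ∀ v i, ‖α v i‖ ^ 2 < (qq v.1 : ℝ)
  /-- `L^S(s, π × ψ)` is continuous and not zero at `s = 1` -/
  standard : ∀ ψ : AddChar X ℂ, ∃ L : ℂ → ℂ, ContinuousAt L 1 ∧ L 1 ≠ 0 ∧
    ∀ s : ℂ, 1 < s.re → L s = Complex.exp (logT (fun v => ψ (cl v)) (fun v k => ∑ i, α v i ^ k) s)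
  /-- `L^S(s, ψ)`, `ψ ≠ 1`, is continuous and not zero at `s = 1` -/
  hecke : ∀ ψ : AddChar X ℂ, ψ ≠ 0 → ∃ L : ℂ → ℂ, ContinuousAt L 1 ∧ L 1 ≠ 0 ∧
    ∀ s : ℂ, 1 < s.re → L s = Complex.exp (logT (fun v => ψ (cl v)) (fun _ _ => 1) s)

/-- `∑_{v ∈ A} q_v^{-σ}` -/
noncomputable def wt (A : Set (PL S)) (σ : ℝ) : ℝ := ∑' v : PL S, A.indicator (fun v => (qq v.1 : ℝ) ^ (-σ)) v

end Pool.Agent.Q251.GN
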