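import Mathlib
import Pool.Agent.Q251.GN.Defs
import Pool.Agent.Y816.GL3R.Ana

/-! A nonvanishing `L`-function has a bounded logarithm near `s = 1`; the first coefficients. -/

set_option autoImplicit false

namespace Pool.Agent.Q251.GN

open Complex Filter Topology NumberField IsDedekindDomain Pool.Agent.TH861.GL3
open Pool.Agent.Y816.GL3R (CS cs_norm cs_mono cs_summ cs_diff)

/-- a continuous function with values in `2 π i ℤ` on an interval is constant -/
theorem const_of_exp {g : ℝ → ℂ} {a b : ℝ} (hg : ContinuousOn g (Set.Ioo a b))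
    (he : ∀ x ∈ Set.Ioo a b, Complex.exp (g x) = 1) {x y : ℝ} (hx : x ∈ Set.Ioo a b) (hy : y ∈ Set.Ioo a b) :
    g x = g y := by
  have h1 : ∀ x ∈ Set.Ioo a b, ∃ n : ℤ, g x = n * (2 * Real.pi * I) := fun x hx => Complex.exp_eq_one_iff.1 (he x hx)
  set T : Set ℝ := Set.range ((↑) : ℤ → ℝ) with hT
  have hTd : IsDiscrete T := by
    rw [hT]
    exact Int.isClosedEmbedding_coe_real.isInducing.isDiscrete_range
  set f : ℝ → ℝ := fun x => (g x).im / (2 * Real.pi) with hf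
  have hfc : ContinuousOn f (Set.Ioo a b) := (Complex.continuous_im.comp_continuousOn hg).div_const _
  have hmem : Set.MapsTo f (Set.Ioo a b) T := by
    intro x hx
    obtain ⟨n, hn⟩ := h1 x hx
    refine ⟨n, ?_⟩
    rw [hf]
    simp only
    rw [hn]
    have : ((n : ℂ) * (2 * Real.pi * I)).im = n * (2 * Real.pi) := by
      simp
    rw [this]
    field_simp
  have h2 := isPreconnected_Ioo.constant_of_mapsTo hTd hfc hmem hx hy
  obtain ⟨n, hn⟩ := h1 x hx
  obtain ⟨m, hm⟩ := h1 y hy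
  have e : ∀ k : ℤ, ((k : ℂ) * (2 * Real.pi * I)).im / (2 * Real.pi) = k := by
    intro k
    have : ((k : ℂ) * (2 * Real.pi * I)).im = k * (2 * Real.pi) := by simp
    rw [this]
    field_simp
  rw [hf] at h2
  simp only at h2
  rw [hn, hm, e, e] at h2
  have h3 : n = m := by exact_mod_cast h2
  rw [hn, hm, h3]

/-- the logarithm of a function which has a finite nonzero limit at `1` is bounded on `(1, 2]` -/
theorem bdd_log {f : ℝ → ℂ} (hf : ContinuousOn f (Set.Ioi 1)) {L : ℂ → ℂ} (hL : ContinuousAt L 1) (h1 : L 1 ≠ 0)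
    (he : ∀ σ : ℝ, 1 < σ → L σ = Complex.exp (f σ)) :
    ∃ C : ℝ, 0 ≤ C ∧ ∀ σ : ℝ, 1 < σ → σ ≤ 2 → ‖f σ‖ ≤ C := by
  -- near `1`
  have hL1 : ContinuousAt (fun σ : ℝ => L σ / L 1) 1 := by
    refine ContinuousAt.div_const ?_ _
    refine ContinuousAt.comp (g := L) ?_ Complex.continuous_ofReal.continuousAt
    simpa using hL
  have hball : ∀ᶠ σ : ℝ in 𝓝 1, ‖L σ / L 1 - 1‖ < 1 / 2 := by
    have h2 : Tendsto (fun σ : ℝ => ‖L σ / L 1 - 1‖) (𝓝 1) (𝓝 ‖L (1 : ℝ) / L 1 - 1‖) :=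
      ((hL1.tendsto).sub_const 1).norm
    have h3 : ‖L (1 : ℝ) / L 1 - 1‖ = 0 := by
      rw [Complex.ofReal_one, div_self h1]
      simp
    rw [h3] at h2
    exact h2.eventually (gt_mem_nhds (by norm_num))
  obtain ⟨δ, hδ, hδb⟩ := Metric.eventually_nhds_iff.1 hball
  set b : ℝ := 1 + min δ 1 with hb
  have hb1 : 1 < b := by
    rw [hb]
    have : 0 < min δ 1 := lt_min hδ one_pos
    linarith
  have hb2 : b ≤ 2 := by
    rw [hb]
    have := min_le_right δ 1
    linarith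
  have hnear : ∀ σ ∈ Set.Ioo 1 b, ‖L σ / L 1 - 1‖ < 1 / 2 := by
    intro σ hσ
    refine hδb ?_
    rw [Real.dist_eq, abs_of_pos (by linarith [hσ.1])]
    have := min_le_left δ 1
    have := hσ.2
    rw [hb] at this
    linarith
  have hslit : ∀ σ ∈ Set.Ioo 1 b, L σ / L 1 ∈ slitPlane := by
    intro σ hσ
    have h2 := hnear σ hσ
    refine Or.inl ?_
    have h3 := (Complex.abs_re_le_norm (L σ / L 1 - 1)).trans h2.le
    rw [Complex.sub_re, Complex.one_re] at h3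
    have := (abs_le.1 h3).1
    linarith
  set g : ℝ → ℂ := fun σ => f σ - Complex.log (L 1) - Complex.log (L σ / L 1) with hg
  have hf' : ContinuousOn f (Set.Ioo 1 b) := hf.mono fun x hx => hx.1
  have hLc : ContinuousOn (fun σ : ℝ => L σ / L 1) (Set.Ioo 1 b) := by
    refine ContinuousOn.div_const ?_ _
    refine ((Complex.continuous_exp.comp_continuousOn hf').congr fun σ hσ => ?_)
    exact he σ hσ.1
  have hgc : ContinuousOn g (Set.Ioo 1 b) := (hf'.sub continuousOn_const).sub (hLc.clog hslit)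
  have hge : ∀ σ ∈ Set.Ioo 1 b, Complex.exp (g σ) = 1 := by
    intro σ hσ
    have h2 : L σ / L 1 ≠ 0 := Complex.slitPlane_ne_zero (hslit σ hσ)
    rw [hg]
    simp only
    rw [Complex.exp_sub, Complex.exp_sub, Complex.exp_log h1, Complex.exp_log h2, ← he σ hσ.1]
    field_simp
    have : L σ ≠ 0 := fun h3 => h2 (by rw [h3, zero_div])
    exact div_self this
  set m : ℝ := (1 + b) / 2 with hm
  have hmb : m ∈ Set.Ioo 1 b := ⟨by rw [hm]; linarith, by rw [hm]; linarith⟩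
  -- bound on `(1, b)`
  have hbd1 : ∀ σ ∈ Set.Ioo 1 b, ‖f σ‖ ≤ ‖g m‖ + ‖Complex.log (L 1)‖ + (1 + Real.pi) := by
    intro σ hσ
    have h2 := const_of_exp hgc hge hσ hmb
    have h3 : f σ = g m + Complex.log (L 1) + Complex.log (L σ / L 1) := by
      rw [← h2, hg]
      ring
    have h4 : ‖Complex.log (L σ / L 1)‖ ≤ 1 + Real.pi := by
      have h5 := Complex.norm_le_abs_re_add_abs_im (Complex.log (L σ / L 1))
      have h6 : |(Complex.log (L σ / L 1)).im| ≤ Real.pi := by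
        rw [Complex.log_im]
        exact Complex.abs_arg_le_pi _
      have h7 : |(Complex.log (L σ / L 1)).re| ≤ 1 := by
        rw [Complex.log_re]
        have h8 := hnear σ hσ
        have h9 : 1 / 2 ≤ ‖L σ / L 1‖ := by
          have := norm_sub_norm_le (1 : ℂ) (1 - L σ / L 1)
          rw [norm_one, sub_sub_cancel, norm_sub_rev] at this
          linarith
        have h10 : ‖L σ / L 1‖ ≤ 3 / 2 := by
          have := norm_sub_norm_le (L σ / L 1) 1
          rw [norm_one] at this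
          linarith
        have h11 : 0 < ‖L σ / L 1‖ := by linarith
        rw [abs_le]
        constructor
        · have h12 : Real.log (1 / 2) ≤ Real.log ‖L σ / L 1‖ := Real.log_le_log (by norm_num) h9
          have h13 : -1 ≤ Real.log (1 / 2) := by
            rw [one_div, Real.log_inv]
            have := Real.log_two_lt_d9
            linarith
          linarith
        · have h12 : Real.log ‖L σ / L 1‖ ≤ ‖L σ / L 1‖ - 1 := Real.log_le_sub_one_of_pos h11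
          linarith
      linarith
    calc ‖f σ‖ ≤ ‖g m + Complex.log (L 1)‖ + ‖Complex.log (L σ / L 1)‖ := by rw [h3]; exact norm_add_le _ _
      _ ≤ _ := add_le_add (norm_add_le _ _) h4
  -- bound on `[m, 2]`
  have hcomp : IsCompact (Set.Icc m 2) := isCompact_Icc
  have hc2 : ContinuousOn (fun σ => ‖f σ‖) (Set.Icc m 2) :=
    (hf.mono fun x hx => (lt_of_lt_of_le hmb.1 hx.1 : (1 : ℝ) < x)).norm
  obtain ⟨M, hM⟩ := hcomp.bddAbove_image hc2
  refine ⟨max (‖g m‖ + ‖Complex.log (L 1)‖ + (1 + Real.pi)) M, ?_, fun σ h2 h3 => ?_⟩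
  · refine le_max_of_le_left ?_
    have := Real.pi_pos
    positivity
  · rcases lt_or_ge σ b with h4 | h4
    · exact (hbd1 σ ⟨h2, h4⟩).trans (le_max_left _ _)
    · exact (hM ⟨σ, ⟨hmb.2.le.trans h4, h3⟩, rfl⟩).trans (le_max_right _ _)

variable {K : Type*} [Field K] [NumberField K] {S : Finset (HeightOneSpectrum (𝓞 K))}

theorem two_le_real (v : HeightOneSpectrum (𝓞 K)) : (2 : ℝ) ≤ qq v := by exact_mod_cast two_le_qq v

/-- **Boundedness of `∑_v c_v q_v^{-s}` near `s = 1`** for an Euler product which does not vanish at `s = 1` -/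
theorem first_bdd {c : PL S × ℕ → ℂ} {B : PL S → ℝ} (hB : Summable B)
    (hc1 : ∀ σ : ℝ, 1 < σ → Summable fun v : PL S => ‖c (v, 0)‖ * (qq v.1 : ℝ) ^ (-σ))
    (hcB : ∀ v k, ‖c (v, k + 1)‖ * ((qq v.1 : ℝ)⁻¹) ^ (k + 2) ≤ B v * (3 / 4) ^ k)
    {L : ℂ → ℂ} (hL : ContinuousAt L 1) (h1 : L 1 ≠ 0)
    (he : ∀ s : ℂ, 1 < s.re → L s = Complex.exp (∑' x : PL S × ℕ, c x * (((qq x.1.1 : ℕ) : ℂ) ^ (-s)) ^ (x.2 + 1))) :
    ∃ C : ℝ, 0 ≤ C ∧ ∀ σ : ℝ, 1 < σ → σ ≤ 2 → ‖∑' v : PL S, c (v, 0) * (((qq v.1 : ℝ) ^ (-σ) : ℝ) : ℂ)‖ ≤ C := by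
  have hB0 : ∀ v, 0 ≤ B v := by
    intro v
    have h2 := hcB v 0
    have : 0 ≤ ‖c (v, 0 + 1)‖ * ((qq v.1 : ℝ)⁻¹) ^ (0 + 2) := by positivity
    simpa using this.trans h2
  -- absolute convergence
  have hexp : ∀ σ : ℝ, 1 ≤ σ → ∀ v : PL S, ∀ k : ℕ, Real.exp (-(σ * LL (v, k))) ≤ ((qq v.1 : ℝ)⁻¹) ^ (k + 1) := by
    intro σ hσ v k
    rw [rexp_LL]
    have hq := qq_pos v.1
    refine pow_le_pow_left₀ (by positivity) ?_ _
    rw [← Real.rpow_neg_one]
    exact Real.rpow_le_rpow_of_exponent_le (one_lt_qq v.1).le (by linarith)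
  have hgeo := hasSum_geometric_of_lt_one (r := (3 / 4 : ℝ)) (by norm_num) (by norm_num)
  have hrow : ∀ σ : ℝ, 1 ≤ σ → ∀ v : PL S, ∀ k : ℕ,
      ‖c (v, k + 1)‖ * Real.exp (-(σ * LL (v, k + 1))) ≤ B v * (3 / 4) ^ k := by
    intro σ hσ v k
    refine le_trans ?_ (hcB v k)
    exact mul_le_mul_of_nonneg_left (hexp σ hσ v (k + 1)) (norm_nonneg _)
  have hzero : ∀ (σ : ℝ) (v : PL S), Real.exp (-(σ * LL (v, 0))) = (qq v.1 : ℝ) ^ (-σ) := by
    intro σ v
    rw [rexp_LL]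
    simp
  have hsum : ∀ σ : ℝ, 1 < σ → Summable fun x : PL S × ℕ => ‖c x‖ * Real.exp (-(σ * LL x)) := by
    intro σ hσ
    rw [summable_prod_of_nonneg (fun x => by positivity)]
    have hrs : ∀ v : PL S, Summable fun k : ℕ => ‖c (v, k)‖ * Real.exp (-(σ * LL (v, k))) := by
      intro v
      rw [← summable_nat_add_iff 1]
      exact Summable.of_nonneg_of_le (fun k => by positivity) (hrow σ hσ.le v) (hgeo.summable.mul_left (B v))
    refine ⟨hrs, ?_⟩
    refine Summable.of_nonneg_of_le (fun v => tsum_nonneg fun k => by positivity) (fun v => ?_)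
      ((hc1 σ hσ).add (hB.mul_right 4))
    rw [(hrs v).tsum_eq_zero_add, hzero]
    refine add_le_add le_rfl ?_
    have h2 := Summable.tsum_le_tsum (hrow σ hσ.le v) ((summable_nat_add_iff 1).2 (hrs v))
      (hgeo.summable.mul_left (B v))
    rw [tsum_mul_left, hgeo.tsum_eq] at h2
    refine h2.trans (le_of_eq ?_)
    norm_num
  -- continuity
  set f : ℂ → ℂ := fun s => ∑' x : PL S × ℕ, c x * (((qq x.1.1 : ℕ) : ℂ) ^ (-s)) ^ (x.2 + 1) with hf
  have hfe : f = CS c LL := by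
    funext s
    rw [hf]
    simp only [CS]
    refine tsum_congr fun x => ?_
    rw [← exp_LL]
  have hfc : ContinuousOn (fun σ : ℝ => f σ) (Set.Ioi 1) := by
    rw [hfe]
    have h2 := (cs_diff (b := c) (L := LL) LL_nonneg (σ := 1) hsum).continuousOn
    refine h2.comp Complex.continuous_ofReal.continuousOn fun σ hσ => ?_
    show 1 < ((σ : ℂ)).re
    rw [Complex.ofReal_re]
    exact hσ
  obtain ⟨C, hC0, hC⟩ := bdd_log (f := fun σ : ℝ => f σ) hfc hL h1 fun σ hσ => he σ (by simpa using hσ)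
  have hBs : 0 ≤ ∑' v, B v := tsum_nonneg hB0
  refine ⟨C + 4 * ∑' v, B v, by positivity, fun σ h2 h3 => ?_⟩
  have h4 := hC σ h2 h3
  rw [hfe] at h4
  have hs := hsum σ h2
  have hsc : Summable fun x : PL S × ℕ => c x * cexp (-((σ : ℂ) * LL x)) := by
    refine Summable.of_norm (hs.congr fun x => ?_)
    rw [cs_norm]
    simp
  have hfib := hsc.prod_factor
  have e1 : CS c LL (σ : ℂ) = ∑' v : PL S, ∑' k : ℕ, c (v, k) * cexp (-((σ : ℂ) * LL (v, k))) := by
    unfold CS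
    exact hsc.tsum_prod
  have e0 : ∀ v : PL S, cexp (-((σ : ℂ) * LL (v, 0))) = (((qq v.1 : ℝ) ^ (-σ) : ℝ) : ℂ) := by
    intro v
    rw [← hzero]
    push_cast
    rfl
  have hfirst : Summable fun v : PL S => c (v, 0) * (((qq v.1 : ℝ) ^ (-σ) : ℝ) : ℂ) := by
    refine Summable.of_norm ((hc1 σ h2).congr fun v => ?_)
    rw [norm_mul, Complex.norm_real, Real.norm_of_nonneg (Real.rpow_nonneg (qq_pos v.1).le _)]
  have e2 : ∀ v : PL S, ∑' k : ℕ, c (v, k) * cexp (-((σ : ℂ) * LL (v, k))) =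
      c (v, 0) * (((qq v.1 : ℝ) ^ (-σ) : ℝ) : ℂ) + ∑' k : ℕ, c (v, k + 1) * cexp (-((σ : ℂ) * LL (v, k + 1))) := by
    intro v
    rw [(hfib v).tsum_eq_zero_add, e0]
  have htn : ∀ v : PL S, ‖∑' k : ℕ, c (v, k + 1) * cexp (-((σ : ℂ) * LL (v, k + 1)))‖ ≤ 4 * B v := by
    intro v
    have h5 : ∀ k : ℕ, ‖c (v, k + 1) * cexp (-((σ : ℂ) * LL (v, k + 1)))‖ ≤ B v * (3 / 4) ^ k := by
      intro k
      have h6 := hrow σ h2.le v k
      have h7 : ‖c (v, k + 1) * cexp (-((σ : ℂ) * LL (v, k + 1)))‖ =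
          ‖c (v, k + 1)‖ * Real.exp (-(σ * LL (v, k + 1))) := by
        rw [norm_mul, Complex.norm_exp]
        simp
      rw [h7]
      exact h6
    have h6 := tsum_of_norm_bounded (hgeo.mul_left (B v)) h5
    refine h6.trans (le_of_eq ?_)
    norm_num
    ring
  have htail : Summable fun v : PL S => ∑' k : ℕ, c (v, k + 1) * cexp (-((σ : ℂ) * LL (v, k + 1))) :=
    Summable.of_norm_bounded (hB.mul_left 4) htn
  have e3 : CS c LL (σ : ℂ) = ∑' v : PL S, c (v, 0) * (((qq v.1 : ℝ) ^ (-σ) : ℝ) : ℂ) +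
      ∑' v : PL S, ∑' k : ℕ, c (v, k + 1) * cexp (-((σ : ℂ) * LL (v, k + 1))) := by
    rw [e1, ← hfirst.tsum_add htail]
    exact tsum_congr e2
  have e4 : ‖∑' v : PL S, ∑' k : ℕ, c (v, k + 1) * cexp (-((σ : ℂ) * LL (v, k + 1)))‖ ≤ 4 * ∑' v, B v := by
    rw [← tsum_mul_left]
    exact tsum_of_norm_bounded (hB.mul_left 4).hasSum htn
  have e5 : ∑' v : PL S, c (v, 0) * (((qq v.1 : ℝ) ^ (-σ) : ℝ) : ℂ) = CS c LL (σ : ℂ) -
      ∑' v : PL S, ∑' k : ℕ, c (v, k + 1) * cexp (-((σ : ℂ) * LL (v, k + 1))) := by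
    rw [e3]
    ring
  rw [e5]
  exact (norm_sub_le _ _).trans (add_le_add h4 e4)

end Pool.Agent.Q251.GN
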