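import Mathlib
import Pool.Agent.Q251.GN.Log
import Pool.Agent.Q251.GN.Loc

/-! Few tempered places of a cusp form on `GL(3)`: the distribution of the Hecke eigenvalues in ray classes. -/

set_option autoImplicit false

namespace Pool.Agent.Q251.GN

open Complex Filter Topology NumberField IsDedekindDomain Pool.Agent.TH861.GL3
open Pool.Agent.Y816.GL3T (weight_bound local_shape)
open Pool.Agent.W189 (RS.Unitary)

variable {K : Type*} [Field K] [NumberField K] {S : Finset (HeightOneSpectrum (𝓞 K))}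

/-! ### Weighted Cauchy-Schwarz -/

theorem cs_wt {ι : Type*} {w f : ι → ℝ} (hw : ∀ i, 0 ≤ w i) (hws : Summable w)
    (hf : Summable fun i => f i ^ 2 * w i) :
    (Summable fun i => f i * w i) ∧ (∑' i, f i * w i) ^ 2 ≤ (∑' i, f i ^ 2 * w i) * ∑' i, w i := by
  have hs : Summable fun i => f i * w i := by
    refine Summable.of_norm_bounded (hf.add hws) fun i => ?_
    rw [norm_mul, Real.norm_eq_abs, Real.norm_of_nonneg (hw i), ← add_one_mul]
    refine mul_le_mul_of_nonneg_right ?_ (hw i)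
    rw [abs_le]
    constructor <;> nlinarith [sq_nonneg (f i - 1), sq_nonneg (f i + 1)]
  refine ⟨hs, ?_⟩
  have h1 : ∀ x : ℝ, 0 ≤ (∑' i, f i ^ 2 * w i) * (x * x) + (-2 * ∑' i, f i * w i) * x + ∑' i, w i := by
    intro x
    have h2 : ∑' i, (x * f i - 1) ^ 2 * w i = (∑' i, f i ^ 2 * w i) * (x * x) + (-2 * ∑' i, f i * w i) * x +
        ∑' i, w i := by
      rw [← tsum_mul_right, ← tsum_mul_left, ← tsum_mul_right, ← (hf.mul_right _).tsum_add ((hs.mul_left _).mul_right _),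
        ← ((hf.mul_right _).add ((hs.mul_left _).mul_right _)).tsum_add hws]
      refine tsum_congr fun i => ?_
      ring
    rw [← h2]
    exact tsum_nonneg fun i => mul_nonneg (sq_nonneg _) (hw i)
  have h3 := discrim_le_zero h1
  unfold discrim at h3
  nlinarith

/-! ### The two families of `L`-functions -/

section
variable {X : Type*} [AddCommGroup X] [Finite X]
variable {α : PL S → Fin 3 → ℂ} {cl : PL S → X} {w : X → ℂ}

theorem summable_lam (h : CuspidalGL3 α) {σ : ℝ} (hσ : 1 < σ) :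
    Summable fun v : PL S => ‖∑ i, α v i‖ ^ 2 * (qq v.1 : ℝ) ^ (-σ) := by
  have hinj : Function.Injective fun v : PL S => ((v, 0) : PL S × ℕ) := fun v w hvw => (Prod.ext_iff.1 hvw).1
  refine ((h.summable σ hσ).comp_injective hinj).congr fun v => ?_
  simp

theorem alpha_le (h : CuspidalGL3 α) (v : PL S) (i : Fin 3) : ‖α v i‖ ^ 2 ≤ 2 * ‖∑ i, α v i‖ ^ 2 + 2 := by
  by_cases ht : ∀ i, ‖α v i‖ = 1
  · rw [ht i]
    nlinarith [sq_nonneg ‖∑ i, α v i‖]
  · obtain ⟨r, hr1, -, hr3, hr4⟩ := local_shape (h.unitary v) ht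
    have h0 : 0 < r := by linarith
    have h1 : 0 < r⁻¹ := inv_pos.2 h0
    have h2 : (r - 1) ^ 2 ≤ ‖∑ i, α v i‖ ^ 2 := by
      refine le_trans ?_ hr3
      exact pow_le_pow_left₀ (by linarith) (by linarith) 2
    have h3 : ‖α v i‖ ^ 2 ≤ r ^ 2 := pow_le_pow_left₀ (norm_nonneg _) (hr4 i) 2
    nlinarith [sq_nonneg (r - 2)]

theorem norm_psi (ψ : AddChar X ℂ) (x : X) : ‖ψ x‖ = 1 := AddChar.norm_apply ψ x

theorem standard_bdd (h : CuspidalGL3 α) (ht : ClassTwists α cl w) (ψ : AddChar X ℂ) :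
    ∃ C : ℝ, 0 ≤ C ∧ ∀ σ : ℝ, 1 < σ → σ ≤ 2 →
      ‖∑' v : PL S, ψ (cl v) * (∑ i, α v i) * (((qq v.1 : ℝ) ^ (-σ) : ℝ) : ℂ)‖ ≤ C := by
  obtain ⟨L, hL, h1, he⟩ := ht.standard ψ
  set c : PL S × ℕ → ℂ := fun x => ψ (cl x.1) ^ (x.2 + 1) * (∑ i, α x.1 i ^ (x.2 + 1)) / ((x.2 : ℂ) + 1) with hc
  have hc0 : ∀ v : PL S, c (v, 0) = ψ (cl v) * ∑ i, α v i := by
    intro v
    rw [hc]
    simp
  have hs2 := summable_lam h (σ := 2) (by norm_num)
  have hs1 := summable_qq (S := S) (σ := 2) (by norm_num)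
  have hq2 : ∀ v : PL S, (qq v.1 : ℝ) ^ (-(2 : ℝ)) = ((qq v.1 : ℝ)⁻¹) ^ 2 := by
    intro v
    rw [Real.rpow_neg (qq_pos v.1).le, inv_pow]
    norm_num
  have hB : Summable fun v : PL S => ∑ i, (‖α v i‖ * (qq v.1 : ℝ)⁻¹) ^ 2 := by
    refine Summable.of_nonneg_of_le (fun v => by positivity) (fun v => ?_)
      ((hs2.mul_left 6).add (hs1.mul_left 6))
    rw [hq2]
    have h3 : ∀ i ∈ (Finset.univ : Finset (Fin 3)), (‖α v i‖ * (qq v.1 : ℝ)⁻¹) ^ 2 ≤
        (2 * ‖∑ i, α v i‖ ^ 2 + 2) * ((qq v.1 : ℝ)⁻¹) ^ 2 := by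
      intro i _
      rw [mul_pow]
      exact mul_le_mul_of_nonneg_right (alpha_le h v i) (by positivity)
    refine (Finset.sum_le_sum h3).trans (le_of_eq ?_)
    rw [Finset.sum_const, Finset.card_univ, Fintype.card_fin, nsmul_eq_mul]
    push_cast
    ring
  have g1 : ∀ σ : ℝ, 1 < σ → Summable fun v : PL S => ‖c (v, 0)‖ * (qq v.1 : ℝ) ^ (-σ) := by
    intro σ hσ
    refine Summable.of_nonneg_of_le (fun v => ?_) (fun v => ?_) ((summable_lam h hσ).add (summable_qq (S := S) hσ))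
    · have := (qq_pos v.1).le
      positivity
    · rw [hc0, norm_mul, norm_psi, one_mul, ← add_one_mul]
      refine mul_le_mul_of_nonneg_right ?_ (Real.rpow_nonneg (qq_pos v.1).le _)
      nlinarith [sq_nonneg (‖∑ i, α v i‖ - 1), norm_nonneg (∑ i, α v i)]
  have g2 : ∀ v k, ‖c (v, k + 1)‖ * ((qq v.1 : ℝ)⁻¹) ^ (k + 2) ≤
      (∑ i, (‖α v i‖ * (qq v.1 : ℝ)⁻¹) ^ 2) * (3 / 4) ^ k := by
    intro v k
    have hq := qq_pos v.1
    have hq2' := two_le_real v.1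
    have h2 : ‖c (v, k + 1)‖ ≤ ∑ i, ‖α v i‖ ^ (k + 2) := by
      rw [hc]
      simp only
      rw [norm_div, norm_mul, norm_pow, norm_psi, one_pow, one_mul]
      have h3 : ‖(((k + 1 : ℕ) : ℂ) + 1)‖ = (k : ℝ) + 2 := by
        have : (((k + 1 : ℕ) : ℂ) + 1) = (((k : ℝ) + 2 : ℝ) : ℂ) := by push_cast; ring
        rw [this, Complex.norm_real, Real.norm_of_nonneg (by positivity)]
      rw [h3]
      have h4 : (1 : ℝ) ≤ (k : ℝ) + 2 := by
        have : (0 : ℝ) ≤ k := Nat.cast_nonneg _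
        linarith
      refine (div_le_self (norm_nonneg _) h4).trans ?_
      refine (norm_sum_le _ _).trans (le_of_eq ?_)
      refine Finset.sum_congr rfl fun i _ => ?_
      rw [norm_pow]
    refine (mul_le_mul_of_nonneg_right h2 (by positivity)).trans ?_
    rw [Finset.sum_mul, Finset.sum_mul]
    refine Finset.sum_le_sum fun i _ => ?_
    rw [← mul_pow, show k + 2 = 2 + k by ring, pow_add]
    refine mul_le_mul_of_nonneg_left ?_ (by positivity)
    refine pow_le_pow_left₀ (by positivity) ?_ _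
    have h5 := ht.jacquet_shalika v i
    refine abs_le_of_sq_le_sq' ?_ (by norm_num) |>.2
    rw [mul_pow]
    have h6 : ‖α v i‖ ^ 2 * ((qq v.1 : ℝ)⁻¹) ^ 2 ≤ (qq v.1 : ℝ) * ((qq v.1 : ℝ)⁻¹) ^ 2 :=
      mul_le_mul_of_nonneg_right h5.le (by positivity)
    have h7 : (qq v.1 : ℝ) * ((qq v.1 : ℝ)⁻¹) ^ 2 = (qq v.1 : ℝ)⁻¹ := by field_simp
    have h8 : (qq v.1 : ℝ)⁻¹ ≤ 1 / 2 := by
      rw [one_div]
      exact inv_anti₀ (by norm_num) hq2'
    rw [h7] at h6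
    linarith
  obtain ⟨C, hC0, hC⟩ := first_bdd (c := c) (B := fun v => ∑ i, (‖α v i‖ * (qq v.1 : ℝ)⁻¹) ^ 2) hB g1 g2 hL h1 he
  refine ⟨C, hC0, fun σ h2 h3 => ?_⟩
  have := hC σ h2 h3
  simp_rw [hc0] at this
  exact this

theorem hecke_bdd (ht : ClassTwists α cl w) (ψ : AddChar X ℂ) (hψ : ψ ≠ 0) :
    ∃ C : ℝ, 0 ≤ C ∧ ∀ σ : ℝ, 1 < σ → σ ≤ 2 →
      ‖∑' v : PL S, ψ (cl v) * (((qq v.1 : ℝ) ^ (-σ) : ℝ) : ℂ)‖ ≤ C := by
  obtain ⟨L, hL, h1, he⟩ := ht.hecke ψ hψ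
  set c : PL S × ℕ → ℂ := fun x => ψ (cl x.1) ^ (x.2 + 1) * 1 / ((x.2 : ℂ) + 1) with hc
  have hc0 : ∀ v : PL S, c (v, 0) = ψ (cl v) := by
    intro v
    rw [hc]
    simp
  have hs1 := summable_qq (S := S) (σ := 2) (by norm_num)
  have hq2 : ∀ v : PL S, (qq v.1 : ℝ) ^ (-(2 : ℝ)) = ((qq v.1 : ℝ)⁻¹) ^ 2 := by
    intro v
    rw [Real.rpow_neg (qq_pos v.1).le, inv_pow]
    norm_num
  have hB : Summable fun v : PL S => ((qq v.1 : ℝ)⁻¹) ^ 2 := hs1.congr hq2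
  have g1 : ∀ σ : ℝ, 1 < σ → Summable fun v : PL S => ‖c (v, 0)‖ * (qq v.1 : ℝ) ^ (-σ) := by
    intro σ hσ
    refine (summable_qq (S := S) hσ).congr fun v => ?_
    rw [hc0, norm_psi, one_mul]
  have g2 : ∀ v k, ‖c (v, k + 1)‖ * ((qq v.1 : ℝ)⁻¹) ^ (k + 2) ≤ ((qq v.1 : ℝ)⁻¹) ^ 2 * (3 / 4) ^ k := by
    intro v k
    have hq := qq_pos v.1
    have hq2' := two_le_real v.1
    have h2 : ‖c (v, k + 1)‖ ≤ 1 := by
      rw [hc]
      simp only
      rw [norm_div, norm_mul, norm_pow, norm_psi, one_pow, one_mul, norm_one]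
      have h3 : ‖(((k + 1 : ℕ) : ℂ) + 1)‖ = (k : ℝ) + 2 := by
        have : (((k + 1 : ℕ) : ℂ) + 1) = (((k : ℝ) + 2 : ℝ) : ℂ) := by push_cast; ring
        rw [this, Complex.norm_real, Real.norm_of_nonneg (by positivity)]
      rw [h3]
      have h4 : (1 : ℝ) ≤ (k : ℝ) + 2 := by
        have : (0 : ℝ) ≤ k := Nat.cast_nonneg _
        linarith
      exact div_le_self zero_le_one h4
    refine (mul_le_mul_of_nonneg_right h2 (by positivity)).trans ?_
    rw [one_mul, show k + 2 = 2 + k by ring, pow_add]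
    refine mul_le_mul_of_nonneg_left ?_ (by positivity)
    refine pow_le_pow_left₀ (by positivity) ?_ _
    have h8 : (qq v.1 : ℝ)⁻¹ ≤ 1 / 2 := by
      rw [one_div]
      exact inv_anti₀ (by norm_num) hq2'
    linarith
  obtain ⟨C, hC0, hC⟩ := first_bdd (c := c) (B := fun v => ((qq v.1 : ℝ)⁻¹) ^ 2) hB g1 g2 hL h1 he
  refine ⟨C, hC0, fun σ h2 h3 => ?_⟩
  have := hC σ h2 h3
  simp_rw [hc0] at this
  exact this

/-! ### Sums over a class -/

open scoped Classical in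
theorem class_sum [Fintype X] {F : PL S → ℂ} (hF : Summable F) (g : X) :
    ∑' v : PL S, (if cl v = g then F v else 0) =
      (Fintype.card X : ℂ)⁻¹ * ∑ ψ : AddChar X ℂ, ψ (-g) * ∑' v : PL S, ψ (cl v) * F v := by
  have hn : (Fintype.card X : ℂ) ≠ 0 := Nat.cast_ne_zero.2 Fintype.card_ne_zero
  have hs : ∀ ψ : AddChar X ℂ, Summable fun v : PL S => ψ (-g) * (ψ (cl v) * F v) := by
    intro ψ
    refine Summable.of_norm (hF.norm.congr fun v => ?_)
    rw [norm_mul, norm_mul, norm_psi, norm_psi, one_mul, one_mul]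
  have h1 : ∀ v : PL S, (if cl v = g then F v else 0) =
      (Fintype.card X : ℂ)⁻¹ * ∑ ψ : AddChar X ℂ, ψ (-g) * (ψ (cl v) * F v) := by
    intro v
    have h2 : ∑ ψ : AddChar X ℂ, ψ (-g) * (ψ (cl v) * F v) = (∑ ψ : AddChar X ℂ, ψ (cl v - g)) * F v := by
      rw [Finset.sum_mul]
      refine Finset.sum_congr rfl fun ψ _ => ?_
      rw [sub_eq_add_neg, AddChar.map_add_eq_mul]
      ring
    rw [h2, AddChar.sum_apply_eq_ite]
    by_cases hv : cl v = g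
    · rw [if_pos hv, if_pos (by rw [hv, sub_self])]
      field_simp
    · rw [if_neg hv, if_neg (fun h3 => hv (sub_eq_zero.1 h3))]
      ring
  rw [tsum_congr h1, tsum_mul_left, Summable.tsum_finsetSum fun ψ _ => hs ψ]
  congr 1
  refine Finset.sum_congr rfl fun ψ _ => ?_
  rw [tsum_mul_left]

end

end Pool.Agent.Q251.GN
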