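import Mathlib
import Pool.Agent.Q251.GN.Main

/-! Few tempered places of a cusp form on `GL(3)`: the main inequality. -/

set_option autoImplicit false

namespace Pool.Agent.Q251.GN

open Complex Filter Topology NumberField IsDedekindDomain Pool.Agent.TH861.GL3
open Pool.Agent.Y816.GL3T (weight_bound local_shape)
open Pool.Agent.Y816.GL3R (zz)

variable {K : Type*} [Field K] [NumberField K] {S : Finset (HeightOneSpectrum (𝓞 K))}

/-! ### The weights -/

theorem wt_summable (A : Set (PL S)) {σ : ℝ} (hσ : 1 < σ) :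
    Summable (A.indicator fun v : PL S => (qq v.1 : ℝ) ^ (-σ)) := (summable_qq hσ).indicator A

theorem wt_nonneg (A : Set (PL S)) (σ : ℝ) : 0 ≤ wt A σ := by
  refine tsum_nonneg fun v => Set.indicator_nonneg (fun v _ => ?_) v
  exact Real.rpow_nonneg (qq_pos v.1).le _

theorem wt_mono {A B : Set (PL S)} (h : A ⊆ B) {σ : ℝ} (hσ : 1 < σ) : wt A σ ≤ wt B σ :=
  Summable.tsum_le_tsum (fun v => Set.indicator_le_indicator_of_subset h
    (fun v => Real.rpow_nonneg (qq_pos v.1).le _) v) (wt_summable A hσ) (wt_summable B hσ)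

open scoped Classical in
theorem wt_eq (A : Set (PL S)) (σ : ℝ) :
    wt A σ = ∑' v : PL S, (if v ∈ A then (1 : ℝ) else 0) * (qq v.1 : ℝ) ^ (-σ) := by
  unfold wt
  refine tsum_congr fun v => ?_
  rw [Set.indicator_apply]
  split_ifs <;> simp

theorem wt_univ (σ : ℝ) : wt (Set.univ : Set (PL S)) σ = ∑' v : PL S, (qq v.1 : ℝ) ^ (-σ) := by
  unfold wt
  rw [Set.indicator_univ]

/-- `∑ q_v^{-σ} → ∞` as `σ → 1` -/
theorem wt_univ_tendsto : Tendsto (wt (Set.univ : Set (PL S))) (𝓝[>] 1) atTop := by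
  have hns : ¬ Summable fun v : PL S => (qq v.1 : ℝ) ^ (-(1 : ℝ)) := by
    intro h1
    refine not_summable_inv K ?_
    have h2 : Summable fun v : {v : HeightOneSpectrum (𝓞 K) // v ∉ S} => (qq v.1 : ℝ) ^ (-(1 : ℝ)) := h1
    exact (S.summable_compl_iff (f := fun v : HeightOneSpectrum (𝓞 K) => (qq v : ℝ) ^ (-(1 : ℝ)))).1 h2
  have hnn : ∀ v : PL S, 0 ≤ (qq v.1 : ℝ) ^ (-(1 : ℝ)) := fun v => Real.rpow_nonneg (qq_pos v.1).le _
  rw [tendsto_atTop]
  intro M
  obtain ⟨F, hF⟩ : ∃ F : Finset (PL S), M + 1 < ∑ v ∈ F, (qq v.1 : ℝ) ^ (-(1 : ℝ)) := by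
    by_contra hcon
    push Not at hcon
    exact hns (summable_of_sum_le hnn hcon)
  have hc : Tendsto (fun σ : ℝ => ∑ v ∈ F, (qq v.1 : ℝ) ^ (-σ)) (𝓝[>] 1) (𝓝 (∑ v ∈ F, (qq v.1 : ℝ) ^ (-(1 : ℝ)))) := by
    refine tendsto_nhdsWithin_of_tendsto_nhds ?_
    have : Continuous fun σ : ℝ => ∑ v ∈ F, (qq v.1 : ℝ) ^ (-σ) := by
      refine continuous_finsetSum _ fun v _ => ?_
      exact continuous_const.rpow continuous_neg fun σ => Or.inl (qq_pos v.1).ne'
    exact this.tendsto 1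
  filter_upwards [hc.eventually (lt_mem_nhds hF), self_mem_nhdsWithin] with σ h1 h2
  have hσ : (1 : ℝ) < σ := h2
  have h3 : ∑ v ∈ F, (qq v.1 : ℝ) ^ (-σ) ≤ wt (Set.univ : Set (PL S)) σ := by
    rw [wt_univ]
    exact (summable_qq hσ).sum_le_tsum _ fun v _ => Real.rpow_nonneg (qq_pos v.1).le _
  linarith

section
variable {X : Type*} [AddCommGroup X] [Finite X]
variable {α : PL S → Fin 3 → ℂ} {cl : PL S → X} {w : X → ℂ}

/-- the tempered places -/
def Tp (α : PL S → Fin 3 → ℂ) : Set (PL S) := {v | ∀ i, ‖α v i‖ = 1}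

/-- the cube roots near the traces -/
theorem exists_roots (h : CuspidalGL3 α) (ht : ClassTwists α cl w) : ∃ z : PL S → ℂ, (∀ v, z v ^ 3 = -w (cl v)) ∧
    ∃ C : ℝ, 0 ≤ C ∧ ∀ σ : ℝ, 1 < σ → (Summable fun v : PL S => ‖∑ i, α v i - z v‖ ^ 2 * (qq v.1 : ℝ) ^ (-σ)) ∧
      ∑' v : PL S, ‖∑ i, α v i - z v‖ ^ 2 * (qq v.1 : ℝ) ^ (-σ) ≤ 50 * wt (Tp α) σ + C := by
  classical
  have hex : ∀ v : PL S, ∃ z : ℂ, z ^ 3 = -w (cl v) ∧
      ((¬ ∀ i, ‖α v i‖ = 1) → ‖∑ i, α v i - z‖ ^ 2 ≤ 34 * (‖∑ i, α v i‖ ^ 2 - 1)) := by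
    intro v
    by_cases hv : ∀ i, ‖α v i‖ = 1
    · obtain ⟨c, hc, -⟩ := exists_cube_root (w := -w (cl v)) (by rw [norm_neg, ht.norm_w])
      exact ⟨c, hc, fun h1 => absurd hv h1⟩
    · obtain ⟨z, h1, h2⟩ := local_root (h.unitary v) (ht.norm_w (cl v)) (ht.central v) hv
      exact ⟨z, h1, fun _ => h2⟩
  choose z hz1 hz2 using hex
  have hzn : ∀ v, ‖z v‖ = 1 := fun v => by
    have h3 : ‖z v‖ ^ 3 = 1 := by rw [← norm_pow, hz1, norm_neg, ht.norm_w]
    exact (pow_eq_one_iff_of_nonneg (norm_nonneg _) (by norm_num)).1 h3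
  set f : PL S → ℝ := fun v => if ∀ i, ‖α v i‖ = 1 then 0 else ‖∑ i, α v i - z v‖ ^ 2 / 34 with hf
  set g : PL S → ℝ := fun v => if ∀ i, ‖α v i‖ = 1 then 1 else 0 with hg
  have hgw : ∀ σ : ℝ, ∑' v : PL S, g v * (qq v.1 : ℝ) ^ (-σ) = wt (Tp α) σ := by
    intro σ
    rw [wt_eq]
    refine tsum_congr fun v => ?_
    by_cases hv : ∀ i, ‖α v i‖ = 1
    · rw [hg]
      simp only
      rw [if_pos hv, if_pos (show v ∈ Tp α from hv)]
    · rw [hg]
      simp only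
      rw [if_neg hv, if_neg (show v ∉ Tp α from hv)]
  obtain ⟨C, hC⟩ := weight_bound h (f := f) (g := g)
    (fun v => by rw [hf]; simp only; split_ifs <;> positivity)
    (fun v => by rw [hg]; simp only; split_ifs <;> norm_num)
    (fun v => by rw [hg]; simp only; split_ifs <;> norm_num)
    (fun v => by
      rw [hf, hg]
      simp only
      split_ifs with hv
      · nlinarith [sq_nonneg ‖∑ i, α v i‖]
      · have := hz2 v hv
        linarith)
  refine ⟨z, hz1, 34 * max C 0, by positivity, fun σ hσ => ?_⟩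
  obtain ⟨h1, h2⟩ := hC σ hσ
  rw [hgw] at h2
  have hgs : Summable fun v : PL S => g v * (qq v.1 : ℝ) ^ (-σ) := by
    refine Summable.of_nonneg_of_le (fun v => ?_) (fun v => ?_) (summable_qq (S := S) hσ)
    · have := (qq_pos v.1).le
      rw [hg]
      simp only
      split_ifs <;> positivity
    · have := (qq_pos v.1).le
      rw [hg]
      simp only
      split_ifs
      · rw [one_mul]
      · rw [zero_mul]
        positivity
  have hle : ∀ v : PL S, ‖∑ i, α v i - z v‖ ^ 2 * (qq v.1 : ℝ) ^ (-σ) ≤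
      34 * (f v * (qq v.1 : ℝ) ^ (-σ)) + 16 * (g v * (qq v.1 : ℝ) ^ (-σ)) := by
    intro v
    rw [← mul_assoc, ← mul_assoc, ← add_mul]
    refine mul_le_mul_of_nonneg_right ?_ (Real.rpow_nonneg (qq_pos v.1).le _)
    rw [hf, hg]
    simp only
    split_ifs with hv
    · have h3 : ‖∑ i, α v i - z v‖ ≤ 4 := by
        refine (norm_sub_le _ _).trans ?_
        rw [hzn v]
        have h4 : ‖∑ i, α v i‖ ≤ 3 := by
          refine (norm_sum_le _ _).trans (le_of_eq ?_)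
          rw [Finset.sum_congr rfl fun i _ => hv i, Finset.sum_const, Finset.card_univ, Fintype.card_fin]
          norm_num
        linarith
      have h4 := pow_le_pow_left₀ (norm_nonneg _) h3 2
      linarith
    · linarith
  have hs3 := (h1.mul_left 34).add (hgs.mul_left 16)
  have hs4 : Summable fun v : PL S => ‖∑ i, α v i - z v‖ ^ 2 * (qq v.1 : ℝ) ^ (-σ) :=
    Summable.of_nonneg_of_le (fun v => by have := (qq_pos v.1).le; positivity) hle hs3
  refine ⟨hs4, ?_⟩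
  have h5 := Summable.tsum_le_tsum hle hs4 hs3
  rw [(h1.mul_left 34).tsum_add (hgs.mul_left 16), tsum_mul_left, tsum_mul_left, hgw] at h5
  have h6 := le_max_left C 0
  linarith

/-- the real inequality at the end -/
theorem final_real {A N P Pg D E M n ε C₁ C₂ C₃ l : ℝ} (hn : 1 ≤ n) (hε : 0 < ε) (hε1 : ε ^ 2 ≤ 3 / 4)
    (h1 : |A - N| ≤ E / ε ^ 2) (h2 : |N - Pg / 3| ≤ 2 / 3 * (l + M)) (hl : l ≤ C₃) (hM : M ^ 2 ≤ E * Pg) (hM0 : 0 ≤ M)
    (hPg : |Pg - P / n| ≤ C₂) (hE : E ≤ 50 * D + C₁) (hE0 : 0 ≤ E) (hD : 0 ≤ D) (hDP : D ≤ P) (hPg0 : 0 ≤ Pg)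
    (hC1 : 0 ≤ C₁) (hC2 : 0 ≤ C₂) (hC3 : 0 ≤ C₃) :
    |A - P / (3 * n)| ≤ 5 * Real.sqrt (D * P / n) + 50 / ε ^ 2 * D +
      (C₁ + C₂ + C₃ + Real.sqrt (50 * C₂) + Real.sqrt C₁ + Real.sqrt (C₁ * C₂)) / ε ^ 2 * (1 + Real.sqrt P) := by
  have hP : 0 ≤ P := hD.trans hDP
  have hn0 : 0 < n := by linarith
  have hε2 : 0 < ε ^ 2 := by positivity
  have hPg1 : Pg ≤ P / n + C₂ := by linarith [(abs_le.1 hPg).2]
  set a := Real.sqrt (D * P / n) with ha
  set b := Real.sqrt (50 * C₂) with hb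
  set c := Real.sqrt C₁ with hc
  set d := Real.sqrt (C₁ * C₂) with hd
  set r := Real.sqrt P with hr
  have ha0 : 0 ≤ a := Real.sqrt_nonneg _
  have hb0 : 0 ≤ b := Real.sqrt_nonneg _
  have hc0 : 0 ≤ c := Real.sqrt_nonneg _
  have hd0 : 0 ≤ d := Real.sqrt_nonneg _
  have hr0 : 0 ≤ r := Real.sqrt_nonneg _
  have ha2 : a ^ 2 = D * P / n := Real.sq_sqrt (by positivity)
  have hb2 : b ^ 2 = 50 * C₂ := Real.sq_sqrt (by positivity)
  have hc2 : c ^ 2 = C₁ := Real.sq_sqrt hC1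
  have hd2 : d ^ 2 = C₁ * C₂ := Real.sq_sqrt (by positivity)
  have hr2 : r ^ 2 = P := Real.sq_sqrt hP
  have hMle : M ≤ 15 / 2 * a + b * r + c * r + d := by
    refine abs_le_of_sq_le_sq' ?_ (by positivity) |>.2
    have h3 : E * Pg ≤ (50 * D + C₁) * (P / n + C₂) := mul_le_mul hE hPg1 hPg0 (by positivity)
    have h4 : D * (P / n) = a ^ 2 := by rw [ha2]; ring
    have h5 : D * C₂ * 50 ≤ (b * r) ^ 2 := by
      rw [mul_pow, hb2, hr2]
      nlinarith
    have h6 : C₁ * (P / n) ≤ (c * r) ^ 2 := by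
      rw [mul_pow, hc2, hr2]
      refine mul_le_mul_of_nonneg_left ?_ hC1
      exact div_le_self hP hn
    have hbr : 0 ≤ b * r := by positivity
    have hcr : 0 ≤ c * r := by positivity
    have h7 : (15 / 2 * a) ^ 2 + (b * r) ^ 2 + (c * r) ^ 2 + d ^ 2 ≤ (15 / 2 * a + b * r + c * r + d) ^ 2 := by
      have : 0 ≤ 2 * (15 / 2 * a * (b * r) + 15 / 2 * a * (c * r) + 15 / 2 * a * d + b * r * (c * r) + b * r * d +
        c * r * d) := by positivity
      nlinarith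
    have h8 : (50 * D + C₁) * (P / n + C₂) = 50 * (D * (P / n)) + D * C₂ * 50 + C₁ * (P / n) + C₁ * C₂ := by ring
    have h9 : 50 * a ^ 2 ≤ (15 / 2 * a) ^ 2 := by nlinarith [sq_nonneg a]
    rw [h8, h4] at h3
    rw [hd2] at h7
    linarith
  have e1 : |A - P / (3 * n)| ≤ E / ε ^ 2 + 2 / 3 * (l + M) + C₂ / 3 := by
    have e2 : A - P / (3 * n) = (A - N) + (N - Pg / 3) + (Pg - P / n) / 3 := by
      field_simp
      ring
    rw [e2]
    refine (abs_add_le _ _).trans (add_le_add ((abs_add_le _ _).trans (add_le_add h1 h2)) ?_)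
    rw [abs_div, abs_of_pos (show (0 : ℝ) < 3 by norm_num)]
    linarith
  refine e1.trans ?_
  have e3 : E / ε ^ 2 ≤ 50 / ε ^ 2 * D + C₁ / ε ^ 2 := by
    have : 50 / ε ^ 2 * D + C₁ / ε ^ 2 = (50 * D + C₁) / ε ^ 2 := by ring
    rw [this]
    exact div_le_div_of_nonneg_right hE hε2.le
  have hinv : 1 ≤ 1 / ε ^ 2 := by
    rw [le_div_iff₀ hε2]
    linarith
  have e4 : 2 / 3 * (l + M) ≤ 5 * a + (C₃ + b * r + c * r + d) := by nlinarith
  have hT : C₁ / ε ^ 2 + (C₃ + b * r + c * r + d) + C₂ / 3 ≤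
      (C₁ + C₂ + C₃ + b + c + d) / ε ^ 2 * (1 + r) := by
    set t := 1 / ε ^ 2 with ht
    have f1 : C₁ / ε ^ 2 = C₁ * t := by rw [ht]; ring
    have f2 : (C₁ + C₂ + C₃ + b + c + d) / ε ^ 2 = (C₁ + C₂ + C₃ + b + c + d) * t := by rw [ht]; ring
    rw [f1, f2]
    have g1 : C₁ * t ≤ C₁ * t * (1 + r) := by
      have : 0 ≤ C₁ * t * r := by positivity
      nlinarith
    have g2 : C₂ / 3 ≤ C₂ * t * (1 + r) := by
      have : C₂ * 1 ≤ C₂ * t := mul_le_mul_of_nonneg_left hinv hC2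
      have : 0 ≤ C₂ * t * r := by positivity
      nlinarith
    have g3 : C₃ ≤ C₃ * t * (1 + r) := by
      have : C₃ * 1 ≤ C₃ * t := mul_le_mul_of_nonneg_left hinv hC3
      have : 0 ≤ C₃ * t * r := by positivity
      nlinarith
    have g4 : b * r ≤ b * t * (1 + r) := by
      have h3 : b * r * 1 ≤ b * r * t := mul_le_mul_of_nonneg_left hinv (by positivity)
      have : 0 ≤ b * t := by positivity
      nlinarith
    have g5 : c * r ≤ c * t * (1 + r) := by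
      have h3 : c * r * 1 ≤ c * r * t := mul_le_mul_of_nonneg_left hinv (by positivity)
      have : 0 ≤ c * t := by positivity
      nlinarith
    have g6 : d ≤ d * t * (1 + r) := by
      have : d * 1 ≤ d * t := mul_le_mul_of_nonneg_left hinv hd0
      have : 0 ≤ d * t * r := by positivity
      nlinarith
    nlinarith
  linarith

end

end Pool.Agent.Q251.GN
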